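import Pool.Agent.TH138.LG.Conv
import Pool.Agent.TH717.GO.Hyb

set_option autoImplicit false
set_option linter.unusedSectionVars false

/-! Digit languages: all bases at once. -/

namespace Pool.Agent.Y75.DL

open Finset Pool.Agent.H533R3.SL Pool.Agent.TH138.LG Pool.Agent.TH717.GO
open scoped LinearAlgebra.Projectivization

/-- for the base `b` all words of the language `𝓛` represent points of the zero set of `FF` -/
def Represents {k L A : Type} [Field k] [Field L] [Algebra k L] {n : ℕ}
    (FF : Set (MvPolynomial (Fin (n + 1)) k)) (b : L)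
    (act : ℕ → Fin (n + 1) → Bool) (δ : ℕ → A → Fin (n + 1) → L) (𝓛 : Set (List (Option A))) :
    Prop :=
  ∀ w ∈ 𝓛, value b act δ w ≠ 0 ∧ ∀ F ∈ FF, MvPolynomial.aeval (value b act δ w) F = 0

/-- `b` is a base: not zero and not a root of unity -/
def IsBase {L : Type} [Field L] (b : L) : Prop := b ≠ 0 ∧ ∀ m : ℕ, 0 < m → b ^ m ≠ 1

/-- the points outside `G = 0` that are represented by words of `𝓛` in some base in which all words
of `𝓛` represent points of the zero set of `FF` -/
def offPtsAll {k L A : Type} [Field k] [Field L] [Algebra k L] {n : ℕ}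
    (FF : Set (MvPolynomial (Fin (n + 1)) k))
    (act : ℕ → Fin (n + 1) → Bool) (δ : ℕ → A → Fin (n + 1) → L) (𝓛 : Set (List (Option A)))
    (G : MvPolynomial (Fin (n + 1)) k) : Set (ℙ L (Fin (n + 1) → L)) :=
  {P | ∃ b : L, IsBase b ∧ Represents FF b act δ 𝓛 ∧ P ∈ offPts b act δ 𝓛 G}

/-- the value of a word is a polynomial in the base -/
theorem poly_run {L A : Type} [Field L] {ι : Type} (act : ℕ → ι → Bool) (δ : ℕ → A → ι → L) :
    ∀ (w : List (Option A)) (i N : ℕ) (Q : ι → Polynomial L), (∀ j, (Q j).natDegree ≤ N) →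
      ∃ (i' : ℕ) (P : ι → Polynomial L), (∀ j, (P j).natDegree ≤ N + w.length) ∧
        ∀ b : L, run b act δ (i, fun j => (Q j).eval b) w = (i', fun j => (P j).eval b) := by
  intro w
  induction w with
  | nil =>
    intro i N Q hQ
    exact ⟨i, Q, fun j => by simpa using hQ j, fun b => rfl⟩
  | cons a w ih =>
    intro i N Q hQ
    cases a with
    | none =>
      obtain ⟨i', P, h1, h2⟩ := ih (i + 1) N Q hQ
      refine ⟨i', P, fun j => (h1 j).trans ?_, fun b => h2 b⟩
      rw [List.length_cons]; omega
    | some a =>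
      obtain ⟨i', P, h1, h2⟩ := ih i (N + 1)
        (fun j => if act i j then Polynomial.X * Q j + Polynomial.C (δ i a j) else Q j) (by
          intro j
          by_cases hj : act i j
          · simp only [hj, if_true]
            refine (Polynomial.natDegree_add_le _ _).trans (max_le ?_ ?_)
            · refine Polynomial.natDegree_mul_le.trans ?_
              have := hQ j
              have h3 := Polynomial.natDegree_X_le (R := L)
              omega
            · rw [Polynomial.natDegree_C]; omega
          · simp only [hj]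
            exact (hQ j).trans (by omega))
      refine ⟨i', P, fun j => (h1 j).trans ?_, fun b => ?_⟩
      · rw [List.length_cons]; omega
      · rw [← h2 b]
        have h3 : run b act δ (i, fun j => (Q j).eval b) (some a :: w)
            = run b act δ (i, fun j => if act i j then b * (Q j).eval b + δ i a j
                else (Q j).eval b) w := rfl
        rw [h3]
        congr 2
        funext j
        by_cases hj : act i j
        · simp [hj]
        · simp [hj]

theorem poly_value {L A : Type} [Field L] {ι : Type} (act : ℕ → ι → Bool) (δ : ℕ → A → ι → L)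
    (w : List (Option A)) : ∃ P : ι → Polynomial L, (∀ j, (P j).natDegree ≤ w.length) ∧
      ∀ (b : L) (j : ι), value b act δ w j = (P j).eval b := by
  obtain ⟨i', P, h1, h2⟩ := poly_run act δ w 0 0 (fun _ => 0) (by simp)
  refine ⟨P, fun j => by simpa using h1 j, fun b j => ?_⟩
  unfold value
  have h3 : ((0 : ℕ), (0 : ι → L)) = (0, fun j => ((fun _ => 0 : ι → Polynomial L) j).eval b) := by
    ext <;> simp
  rw [h3, h2]

variable {k L A : Type} [Field k] [Field L] [Algebra k L] {n : ℕ}

theorem aeval_eval (P : Fin (n + 1) → Polynomial L) (F : MvPolynomial (Fin (n + 1)) k) (b : L) :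
    MvPolynomial.aeval (fun i => (P i).eval b) F = (MvPolynomial.aeval P F).eval b := by
  have h4 : Polynomial.eval b (MvPolynomial.aeval P F) =
      ((Polynomial.aeval b : Polynomial L →ₐ[L] L).restrictScalars k)
        (MvPolynomial.aeval P F) := by
    simp [Polynomial.coe_aeval_eq_eval]
  rw [h4, ← AlgHom.comp_apply, MvPolynomial.comp_aeval]
  congr 2

theorem natDegree_aeval (P : Fin (n + 1) → Polynomial L) (F : MvPolynomial (Fin (n + 1)) k)
    (d N : ℕ) (hF : F.totalDegree ≤ d) (hP : ∀ i, (P i).natDegree ≤ N) :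
    (MvPolynomial.aeval P F).natDegree ≤ d * N := by
  have h1 : MvPolynomial.aeval P F = MvPolynomial.aeval P (MvPolynomial.map (algebraMap k L) F) := by
    rw [MvPolynomial.aeval_map_algebraMap]
  rw [h1]
  refine MvPolynomial.aeval_natDegree_le _ (le_trans ?_ hF) _ hP
  exact Finset.sup_mono (MvPolynomial.support_map_subset _ _)

/-- the condition on curves with exponents below `r` -/
def CurveCond (FF : Set (MvPolynomial (Fin (n + 1)) k)) (G : MvPolynomial (Fin (n + 1)) k)
    (r : ℕ) : Prop :=
  ∀ (L : Type) [Field L] [Algebra k L] (c : Fin r → Fin (n + 1) → L) (l : Fin r → ℕ),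
    (∀ F ∈ FF, MvPolynomial.aeval (cur c l) F = 0) →
    (∃ i i', cur c l i * Polynomial.C (∑ j, c j i') ≠
      cur c l i' * Polynomial.C (∑ j, c j i)) →
    MvPolynomial.aeval (fun i => ∑ j, c j i) G = 0

/-- a curve on the variety through a point off `G = 0` is constant -/
theorem curve_dich (FF : Set (MvPolynomial (Fin (n + 1)) k)) (G : MvPolynomial (Fin (n + 1)) k)
    (r : ℕ) (hG : CurveCond FF G r) (P : Fin (n + 1) → Polynomial L)
    (hP : ∀ i, (P i).natDegree < r) (hX : ∀ F ∈ FF, MvPolynomial.aeval P F = 0) (b : L)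
    (hb : b ≠ 0) (hGb : MvPolynomial.aeval (fun i => (P i).eval b) G ≠ 0) (i j : Fin (n + 1))
    (a : L) : (P i).eval a * (P j).eval b = (P j).eval a * (P i).eval b := by
  classical
  let c : Fin r → Fin (n + 1) → L := fun j i => (P i).coeff j * b ^ (j : ℕ)
  let l : Fin r → ℕ := fun j => j
  have hsum : ∀ i, ∑ j, c j i = (P i).eval b := by
    intro i
    rw [Polynomial.eval_eq_sum_range' (hP i) b, Finset.sum_range]
  have hcur : ∀ i, cur c l i = (P i).comp (Polynomial.C b * Polynomial.X) := by
    intro i
    unfold cur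
    rw [Polynomial.comp, Polynomial.eval₂_eq_sum_range' _ (hP i), Finset.sum_range]
    refine Finset.sum_congr rfl fun j _ => ?_
    simp only [c, l, Polynomial.C_mul, Polynomial.C_pow, mul_pow]
    ring
  have hz : ∀ F ∈ FF, MvPolynomial.aeval (cur c l) F = 0 := by
    intro F hF
    let φ : Polynomial L →ₐ[L] Polynomial L := Polynomial.aeval (Polynomial.C b * Polynomial.X)
    have h2 : (cur c l) = fun i => (φ.restrictScalars k) (P i) := by
      funext i
      rw [hcur]
      change _ = Polynomial.aeval (Polynomial.C b * Polynomial.X) (P i)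
      rw [Polynomial.aeval_def, Polynomial.comp, Polynomial.algebraMap_eq]
    rw [h2]
    have h3 := MvPolynomial.comp_aeval (f := P) (φ := φ.restrictScalars k)
    have h4 := congrArg (fun ψ : MvPolynomial (Fin (n + 1)) k →ₐ[k] Polynomial L => ψ F) h3
    simp only [AlgHom.comp_apply, hX F hF, map_zero] at h4
    exact h4.symm
  have hconst : ∀ i i', cur c l i * Polynomial.C (∑ j, c j i') =
      cur c l i' * Polynomial.C (∑ j, c j i) := by
    by_contra hcon
    push Not at hcon
    apply hGb
    have h5 := hG L c l hz hcon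
    rw [← h5]
    simp only [hsum]
  have h6 := congrArg (Polynomial.eval (b⁻¹ * a)) (hconst i j)
  rw [hsum, hsum, hcur, hcur] at h6
  simp only [Polynomial.eval_mul, Polynomial.eval_C, Polynomial.eval_comp, Polynomial.eval_X] at h6
  rw [mul_inv_cancel_left₀ hb] at h6
  exact h6

/-- the points represented by a given word in all bases -/
theorem word_points (FF : Set (MvPolynomial (Fin (n + 1)) k)) (d p : ℕ)
    (hd : ∀ F ∈ FF, F.totalDegree ≤ d) (G : MvPolynomial (Fin (n + 1)) k)
    (hG : CurveCond FF G p) (act : ℕ → Fin (n + 1) → Bool) (δ : ℕ → A → Fin (n + 1) → L)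
    (w : List (Option A)) (hw : w.length < p) :
    {P : ℙ L (Fin (n + 1) → L) | ∃ b : L, b ≠ 0 ∧ (∀ F ∈ FF,
      MvPolynomial.aeval (value b act δ w) F = 0) ∧ ∃ h : value b act δ w ≠ 0,
      P = Projectivization.mk L (value b act δ w) h ∧
      MvPolynomial.aeval (value b act δ w) G ≠ 0}.Finite ∧
    {P : ℙ L (Fin (n + 1) → L) | ∃ b : L, b ≠ 0 ∧ (∀ F ∈ FF,
      MvPolynomial.aeval (value b act δ w) F = 0) ∧ ∃ h : value b act δ w ≠ 0,
      P = Projectivization.mk L (value b act δ w) h ∧
      MvPolynomial.aeval (value b act δ w) G ≠ 0}.ncard ≤ d * p + 1 := by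
  classical
  obtain ⟨P, hP1, hP2⟩ := poly_value act δ w
  have hval : ∀ b, value b act δ w = fun j => (P j).eval b := fun b => funext (hP2 b)
  by_cases hX : ∀ F ∈ FF, MvPolynomial.aeval P F = 0
  · have hsub : {P : ℙ L (Fin (n + 1) → L) | ∃ b : L, b ≠ 0 ∧ (∀ F ∈ FF,
        MvPolynomial.aeval (value b act δ w) F = 0) ∧ ∃ h : value b act δ w ≠ 0,
        P = Projectivization.mk L (value b act δ w) h ∧
        MvPolynomial.aeval (value b act δ w) G ≠ 0}.Subsingleton := by
      rintro Q ⟨b, hb, -, h, rfl, hGb⟩ Q' ⟨b', hb', -, h', rfl, hGb'⟩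
      apply mk_eq_of_cross
      intro i j
      rw [hval] at hGb
      have := curve_dich FF G p hG P (fun i => (hP1 i).trans_lt hw) hX b hb hGb i j b'
      rw [hval, hval]
      linear_combination -this
    refine ⟨hsub.finite, ?_⟩
    have := hsub.finite.to_subtype
    have := Set.ncard_le_one_iff_subsingleton.2 hsub
    omega
  · push Not at hX
    obtain ⟨F, hF, hF0⟩ := hX
    set R : Finset L := (MvPolynomial.aeval P F : Polynomial L).roots.toFinset with hR
    have hRc : R.card ≤ d * p := by
      refine (Multiset.toFinset_card_le _).trans ((Polynomial.card_roots' _).trans ?_)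
      refine (natDegree_aeval P F d w.length (hd F hF) hP1).trans (Nat.mul_le_mul_left _ hw.le)
    let f : L → ℙ L (Fin (n + 1) → L) := fun b => if h : value b act δ w ≠ 0 then
      Projectivization.mk L (value b act δ w) h else
      Projectivization.mk L (fun _ => 1) (fun h => one_ne_zero (congrFun h 0))
    have hsub : {P : ℙ L (Fin (n + 1) → L) | ∃ b : L, b ≠ 0 ∧ (∀ F ∈ FF,
        MvPolynomial.aeval (value b act δ w) F = 0) ∧ ∃ h : value b act δ w ≠ 0,
        P = Projectivization.mk L (value b act δ w) h ∧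
        MvPolynomial.aeval (value b act δ w) G ≠ 0} ⊆ (R.image f : Finset _) := by
      rintro Q ⟨b, hb, hz, h, rfl, -⟩
      rw [Finset.mem_coe, Finset.mem_image]
      refine ⟨b, ?_, by simp only [f, dif_pos h]⟩
      rw [hR, Multiset.mem_toFinset, Polynomial.mem_roots hF0, Polynomial.IsRoot.def,
        ← aeval_eval, ← hval]
      exact hz F hF
    refine ⟨(Finset.finite_toSet _).subset hsub, ?_⟩
    refine (Set.ncard_le_ncard hsub (Finset.finite_toSet _)).trans ?_
    rw [Set.ncard_coe_finset]
    exact Finset.card_image_le.trans (hRc.trans (by omega))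

/-- the number of short words -/
theorem short_words_card (B : Type) [Finite B] (p : ℕ) :
    {w : List B | w.length < p}.ncard ≤ (Nat.card B + 1) ^ p := by
  classical
  have : Fintype B := Fintype.ofFinite B
  let f : List B → (Fin p → Option B) := fun w i => w[(i : ℕ)]?
  have hinj : Set.InjOn f {w : List B | w.length < p} := by
    intro w hw w' hw' h
    apply List.ext_getElem?
    intro i
    by_cases hi : i < p
    · exact congrFun h ⟨i, hi⟩
    · rw [List.getElem?_eq_none (by have : w.length < p := hw; omega),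
        List.getElem?_eq_none (by have : w'.length < p := hw'; omega)]
  have h1 := Set.ncard_le_ncard_of_injOn (t := (Set.univ : Set (Fin p → Option B))) f
    (fun _ _ => Set.mem_univ _) hinj Set.finite_univ
  refine h1.trans (le_of_eq ?_)
  rw [Set.ncard_univ, Nat.card_eq_fintype_card, Fintype.card_fun, Fintype.card_option,
    Fintype.card_fin, Nat.card_eq_fintype_card]

/-- **All bases at once.** -/
theorem all_bases [Finite A] (FF : Set (MvPolynomial (Fin (n + 1)) k)) (d s p m : ℕ)
    (hd : ∀ F ∈ FF, F.totalDegree ≤ d) (G : MvPolynomial (Fin (n + 1)) k) (e : ℕ)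
    (hGe : G.IsHomogeneous e) (hG1 : CurveCond FF G (2 ^ s)) (hG2 : CurveCond FF G p)
    (act : ℕ → Fin (n + 1) → Bool) (δ : ℕ → A → Fin (n + 1) → L) (𝓛 : Set (List (Option A)))
    (hsep : ∀ w ∈ 𝓛, w.countP Option.isNone ≤ m) (hit : Iterative s p 𝓛) :
    (offPtsAll FF act δ 𝓛 G).Finite ∧
    (offPtsAll FF act δ 𝓛 G).ncard ≤ (Nat.card A + 2) ^ p * (d * p + 1) := by
  classical
  have hfin : {w : List (Option A) | w.length < p}.Finite := List.finite_length_lt (Option A) p
  set W : Finset (List (Option A)) := hfin.toFinset with hW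
  have hsub : offPtsAll FF act δ 𝓛 G ⊆ ⋃ w ∈ W, {P : ℙ L (Fin (n + 1) → L) | ∃ b : L, b ≠ 0 ∧
      (∀ F ∈ FF, MvPolynomial.aeval (value b act δ w) F = 0) ∧ ∃ h : value b act δ w ≠ 0,
      P = Projectivization.mk L (value b act δ w) h ∧
      MvPolynomial.aeval (value b act δ w) G ≠ 0} := by
    rintro P ⟨b, ⟨hb0, hb⟩, hrep, hP⟩
    rw [points_short FF s p G e hGe (fun c l => hG1 L c l) b hb0 hb act δ 𝓛 ⟨m, hsep⟩ hrep hit]
      at hP
    obtain ⟨w, ⟨hw, hwp⟩, h, rfl, hwG⟩ := hP
    simp only [Set.mem_iUnion]
    exact ⟨w, by rw [hW, Set.Finite.mem_toFinset]; exact hwp, b, hb0, (hrep w hw).2, h, rfl, hwG⟩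
  have hfin2 : (⋃ w ∈ W, {P : ℙ L (Fin (n + 1) → L) | ∃ b : L, b ≠ 0 ∧
      (∀ F ∈ FF, MvPolynomial.aeval (value b act δ w) F = 0) ∧ ∃ h : value b act δ w ≠ 0,
      P = Projectivization.mk L (value b act δ w) h ∧
      MvPolynomial.aeval (value b act δ w) G ≠ 0}).Finite := by
    refine Set.Finite.biUnion (Finset.finite_toSet W) fun w hw => ?_
    have hw' : w.length < p := by
      have := Finset.mem_coe.1 hw
      rw [hW, Set.Finite.mem_toFinset] at this
      exact this
    exact (word_points FF d p hd G hG2 act δ w hw').1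
  refine ⟨hfin2.subset hsub, (Set.ncard_le_ncard hsub hfin2).trans ?_⟩
  refine (Finset.set_ncard_biUnion_le W _).trans ?_
  refine (Finset.sum_le_card_nsmul W _ (d * p + 1) fun w hw => ?_).trans ?_
  · have hw' : w.length < p := by
      rw [hW, Set.Finite.mem_toFinset] at hw
      exact hw
    exact (word_points FF d p hd G hG2 act δ w hw').2
  · rw [smul_eq_mul]
    refine Nat.mul_le_mul_right _ ?_
    have h1 := short_words_card (Option A) p
    rw [Set.ncard_eq_toFinset_card _ hfin] at h1
    refine h1.trans (le_of_eq ?_)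
    have : Nat.card (Option A) = Nat.card A + 1 := by
      have : Fintype A := Fintype.ofFinite A
      rw [Nat.card_eq_fintype_card, Fintype.card_option, Nat.card_eq_fintype_card]
    rw [this]

end Pool.Agent.Y75.DL
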