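import Pool.Agent.Y75.DL.All
import Pool.Agent.TH138.LG.Words2

set_option autoImplicit false
set_option linter.unusedSectionVars false

/-! Digit languages on a rational curve. -/

namespace Pool.Agent.Y75.DL

open Finset Pool.Agent.H533R3.SL Pool.Agent.TH138.LG Pool.Agent.TH717.GO
open scoped LinearAlgebra.Projectivization

variable {k : Type} [Field k] {n : ℕ}

/-- a nonconstant polynomial curve carries an iterative language of binary digit words with
infinitely many points -/
theorem curve_language (FF : Set (MvPolynomial (Fin (n + 1)) k)) (L : Type) [Field L] [CharZero L]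
    [Algebra k L] (p : Fin (n + 1) → Polynomial L) (h1 : ∀ F ∈ FF, MvPolynomial.aeval p F = 0)
    (h3 : ∃ i j, p i * Polynomial.C ((p j).eval 1) ≠ p j * Polynomial.C ((p i).eval 1)) :
    ∃ (A : Type) (_ : Finite A) (δ : ℕ → A → Fin (n + 1) → L) (s p : ℕ)
      (𝓛 : Set (List (Option A))),
      Iterative s p 𝓛 ∧ (∀ w ∈ 𝓛, w.countP Option.isNone = 0) ∧
      Represents FF (2 : L) (fun _ _ => true) δ 𝓛 ∧
      ¬ (offPts (2 : L) (fun _ _ => true) δ 𝓛 (1 : MvPolynomial (Fin (n + 1)) k)).Finite := by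
  classical
  set D : ℕ := Finset.univ.sup fun i => (p i).natDegree with hDdef
  have hD : ∀ i, (p i).natDegree ≤ D := fun i => Finset.le_sup (f := fun i => (p i).natDegree)
    (Finset.mem_univ i)
  have hb0 : (2 : L) ≠ 0 := two_ne_zero
  have hb : ∀ m : ℕ, 0 < m → (2 : L) ^ m ≠ 1 := by
    intro m hm h
    have h4 : ((2 ^ m : ℕ) : L) = ((1 : ℕ) : L) := by push_cast; exact h
    have h5 : 2 ^ m = 1 := Nat.cast_injective h4
    have h6 : 1 < 2 ^ m := Nat.one_lt_two_pow (by omega)
    omega
  have hDpos : 1 ≤ D := by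
    by_contra hcon
    have hD0 : D = 0 := by omega
    obtain ⟨i, j, hij⟩ := h3
    apply hij
    have hi := Polynomial.eq_C_of_natDegree_le_zero (hD0 ▸ hD i)
    have hj := Polynomial.eq_C_of_natDegree_le_zero (hD0 ▸ hD j)
    rw [hi, hj]
    simp [mul_comm]
  obtain ⟨i0, hi0⟩ : ∃ i, p i ≠ 0 := by
    by_contra hcon
    push Not at hcon
    obtain ⟨i, j, hij⟩ := h3
    exact hij (by rw [hcon i, hcon j])
  have hroots : ∀ P : Polynomial L, P ≠ 0 → {q : ℕ | P.eval ((2 : L) ^ (q + 1)) = 0}.Finite := by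
    intro P hP
    refine Set.Finite.of_finite_image (f := fun q : ℕ => (2 : L) ^ (q + 1))
      ((P.roots.toFinset.finite_toSet).subset ?_) ?_
    · rintro _ ⟨q, hq, rfl⟩
      simpa [hP] using hq
    · intro q _ q' _ h
      have := pow_injective hb0 hb h
      simpa using this
  obtain ⟨q0, hq0⟩ : ∃ q0, ∀ q, q0 ≤ q → (p i0).eval ((2 : L) ^ (q + 1)) ≠ 0 := by
    obtain ⟨B, hB⟩ := (hroots _ hi0).bddAbove
    exact ⟨B + 1, fun q hq h => by have := hB h; omega⟩
  have hv : ∀ q, value (2 : L) (fun _ _ => true) (δp p D) (Wd D q) =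
      fun i => (p i).eval ((2 : L) ^ (q + 1)) := fun q => value_Wd p D hD 2 q
  refine ⟨Option (Fin (D + 1)), inferInstance, δp p D, D, 1 + D * (q0 + 1) + 1,
    {w | ∃ q, q0 ≤ q ∧ w = Wd D q}, ?_, ?_, ?_, ?_⟩
  · rintro w ⟨q, hq, rfl⟩ hlen
    rw [length_Wd] at hlen
    have hlt : q0 < q := by
      by_contra hcon
      have : q = q0 := by omega
      subst this
      omega
    refine ⟨[dl D D], psq D (q - 1), by simp [psq], ?_, ?_, fun j => ?_⟩
    · refine ⟨_, List.mem_map.2 ⟨0, List.mem_range.2 hDpos, rfl⟩, by simp⟩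
    · rw [pumped_psq, Nat.sub_add_cancel (by omega)]
    · exact ⟨q - 1 + j, by omega, pumped_psq D (q - 1) j⟩
  · rintro w ⟨q, _, rfl⟩
    exact countP_Wd D q
  · rintro w ⟨q, hq, rfl⟩
    rw [hv]
    refine ⟨fun h => hq0 q hq (congrFun h i0), fun F hF => ?_⟩
    rw [aeval_eval, h1 F hF, Polynomial.eval_zero]
  · intro hfin
    -- all large `q` give points in the finite set
    have hcov : Set.univ ⊆ {q : ℕ | q < q0} ∪ ⋃ P ∈ offPts (2 : L) (fun _ _ => true) (δp p D)
          {w | ∃ q, q0 ≤ q ∧ w = Wd D q} (1 : MvPolynomial (Fin (n + 1)) k),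
          {q : ℕ | ∀ i j, (p i).eval ((2 : L) ^ (q + 1)) *
            P.rep j = (p j).eval ((2 : L) ^ (q + 1)) * P.rep i} := by
      intro q _
      by_cases hq : q < q0
      · exact Or.inl hq
      · right
        have hne : value (2 : L) (fun _ _ => true) (δp p D) (Wd D q) ≠ 0 := by
          rw [hv]
          exact fun h => hq0 q (by omega) (congrFun h i0)
        simp only [Set.mem_iUnion]
        refine ⟨Projectivization.mk L _ hne, ⟨Wd D q, ⟨q, by omega, rfl⟩, hne, rfl, ?_⟩, ?_⟩
        · rw [map_one]; exact one_ne_zero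
        · intro i j
          obtain ⟨a, ha⟩ := Projectivization.exists_smul_eq_mk_rep L _ hne
          rw [← ha, hv]
          simp only [Pi.smul_apply, Units.smul_def, smul_eq_mul]
          ring
    apply Set.infinite_univ (α := ℕ)
    refine Set.Finite.subset (Set.Finite.union (Set.finite_lt_nat q0)
      (Set.Finite.biUnion hfin fun P _ => fibre_finite p h3 2 hb0 hb P.rep P.rep_nonzero)) hcov

/-- a rational curve over `ℂ` gives a language over a number field -/
theorem converse_noRat {k : Type} [Field k] [NumberField k] (σ : k →+* ℂ)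
    (FF : Set (MvPolynomial (Fin (n + 1)) k)) (h : ¬ NoRatC σ FF) :
    ∃ (K : Type) (_ : Field K) (_ : NumberField K) (_ : Algebra k K)
      (A : Type) (_ : Finite A) (δ : ℕ → A → Fin (n + 1) → K) (s p : ℕ)
      (𝓛 : Set (List (Option A))),
      Iterative s p 𝓛 ∧ (∀ w ∈ 𝓛, w.countP Option.isNone = 0) ∧
      Represents FF (2 : K) (fun _ _ => true) δ 𝓛 ∧
      ¬ (offPts (2 : K) (fun _ _ => true) δ 𝓛 (1 : MvPolynomial (Fin (n + 1)) k)).Finite := by
  classical
  unfold NoRatC at h
  push Not at h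
  obtain ⟨q, hq, i, j, a, b, hab⟩ := h
  let _ : Algebra k ℂ := σ.toAlgebra
  let sh : Polynomial ℂ →+* Polynomial ℂ := Polynomial.compRingHom (Polynomial.X + Polynomial.C (b - 1))
  let p : Fin (n + 1) → Polynomial ℂ := fun i => sh (q i)
  have hpe : ∀ i (t : ℂ), (p i).eval t = (q i).eval (t + (b - 1)) := by
    intro i t
    show ((q i).comp _).eval t = _
    rw [Polynomial.eval_comp, Polynomial.eval_add, Polynomial.eval_X, Polynomial.eval_C]
  have hp : ∀ F ∈ FF, MvPolynomial.aeval p F = 0 := by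
    intro F hF
    have h1 := congrArg sh (hq F hF)
    rw [map_zero, MvPolynomial.hom_eval₂] at h1
    rw [MvPolynomial.aeval_def]
    have h2 : sh.comp (Polynomial.C.comp σ) = algebraMap k (Polynomial ℂ) := by
      refine RingHom.ext fun x => ?_
      show (Polynomial.C (σ x)).comp _ = _
      rw [Polynomial.C_comp, Polynomial.algebraMap_apply]
      rfl
    rw [← h2]
    exact h1
  set N : ℕ := Finset.univ.sup (fun i => (p i).natDegree) + 1 with hN
  have hNc : ∀ i m, N ≤ m → (p i).coeff m = 0 := by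
    intro i m hm
    apply Polynomial.coeff_eq_zero_of_natDegree_lt
    have := Finset.le_sup (f := fun i => (p i).natDegree) (Finset.mem_univ i)
    omega
  obtain ⟨K, iK, iN, iAK, w, h1, h2, h3⟩ := Pool.Agent.TH409.SH.specialise k ℂ p FF hp N hNc
    ⟨i, j, fun heq => hab (by
      have h4 := congrArg (Polynomial.eval (a - (b - 1))) heq
      rw [Polynomial.eval_mul, Polynomial.eval_mul, Polynomial.eval_C, Polynomial.eval_C, hpe, hpe,
        hpe, hpe] at h4
      simpa using h4)⟩ 1 (by rw [map_one]; exact one_ne_zero)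
  obtain ⟨A, hA, δ, s, p', 𝓛, h4, h5, h6, h7⟩ := curve_language FF K
    (cur w (fun j => (j : ℕ))) h1 h2
  exact ⟨K, iK, iN, iAK, A, hA, δ, s, p', 𝓛, h4, h5, h6, h7⟩

/-- absence of rational curves gives the condition on curves over all fields -/
theorem curveCond_of_noRat {k : Type} [Field k] [NumberField k] (σ : k →+* ℂ)
    (FF : Set (MvPolynomial (Fin (n + 1)) k)) (h : NoRatC σ FF) (r : ℕ) :
    CurveCond FF (1 : MvPolynomial (Fin (n + 1)) k) r := by
  classical
  intro L _ _ c l hz ⟨i, i', hne⟩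
  exfalso
  apply hne
  have h1 := noRat_all σ FF h (Finset.univ.biUnion fun i => (cur c l i).support).card L (cur c l)
    (Finset.univ.biUnion fun i => (cur c l i).support) le_rfl
    (fun i => Finset.subset_biUnion_of_mem (fun i => (cur c l i).support) (Finset.mem_univ i)) hz
    (by rw [map_one]; exact one_ne_zero) i i'
  rw [cur_eval_one, cur_eval_one] at h1
  exact h1

end Pool.Agent.Y75.DL
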